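import Pool.Agent.W5h31.CU.CU4
import Pool.Agent.Y843.AC.HLD

/-!
Chen's theorem between consecutive powers.
-/

set_option autoImplicit false
set_option linter.unusedSectionVars false

namespace Pool.Agent.W5h31.CV

open Finset Filter
open Pool.Agent.Y843.AC (APs)
open Pool.Agent.Y843.AC.HL
open Pool.Agent.W5h31.CU (NT HT idx idx_spec len NT_bd NT_tendsto idx_bd pigeon exceptional)

open Classical in
/-- the primes `q` with `q`, `q + 2` strictly between `n ^ u` and `(n + 1) ^ u` such that `q + 2` has at most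
two prime factors, all larger than `n ^ (u / 9)`, and the `q + t`, `t ∈ T`, at most `j`, all larger
than `n ^ (u / j)` -/
noncomputable def Cs (u : ℝ) (j : ℕ) (T : Finset ℤ) (n : ℕ) : Finset ℕ :=
  (range ⌈((n : ℝ) + 1) ^ u⌉₊).filter (fun q => q.Prime ∧ (n : ℝ) ^ u < q ∧
    (q : ℝ) + 2 < ((n : ℝ) + 1) ^ u ∧ Alm 2 ((n : ℝ) ^ (u / 9)) (q + 2) ∧
    ∀ t ∈ T, Alm j ((n : ℝ) ^ (u / j)) (q + t))

/-- the expected density -/
noncomputable def ge (T : Finset ℤ) (n : ℕ) : ℝ := Sing T / Real.log n ^ T.card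

/-- the scale -/
noncomputable def xs (u : ℝ) (X : ℕ) : ℕ := ⌊(X : ℝ) ^ u⌋₊

theorem xs_tendsto {u : ℝ} (hu : 1 < u) : Tendsto (xs u) atTop atTop := by
  have hu0 : 0 < u := by linarith
  have h1 : Tendsto (fun T : ℕ => (T : ℝ) ^ u) atTop atTop :=
    (tendsto_rpow_atTop hu0).comp (tendsto_natCast_atTop_atTop (R := ℝ))
  exact tendsto_nat_floor_atTop.comp h1

/-- the numerical conditions -/
theorem nums (u : ℝ) (j : ℕ) (hj : 1 ≤ j) (hu : 1 < u) : ∀ᶠ X : ℕ in atTop, 64 ≤ X ∧ 3 ≤ xs u X ∧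
    (xs u X : ℝ) ≤ (X : ℝ) ^ u ∧ (X : ℝ) ^ u ≤ 2 * (xs u X : ℝ) ∧
    (xs u X : ℝ) ^ ((u - 1) / (2 * u)) ≤ (HT u X : ℝ) ∧ HT u X ≤ xs u X ∧
    (HT u X : ℝ) ≤ (u + 2) * (X : ℝ) ^ (u - 1) ∧ (X : ℝ) ^ (u - 1) ≤ (HT u X : ℝ) ∧
    2 * u ≤ Real.log X / 2 ∧
    (xs u X : ℝ) ^ (1 / ((2 * j : ℕ) : ℝ)) ≤ ((X : ℝ) / 8) ^ (u / j) ∧
    2 * NT u X ≤ xs u X ∧ (1 / 4 : ℝ) * xs u X ≤ NT u X := by
  have hu0 : 0 < u := by linarith
  have hj0 : (0 : ℝ) < j := by exact_mod_cast hj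
  have hcast := tendsto_natCast_atTop_atTop (R := ℝ)
  filter_upwards [NT_bd hu, eventually_ge_atTop 64, (xs_tendsto hu).eventually_ge_atTop 3,
    hcast.eventually_ge_atTop (u + 3),
    (Real.tendsto_log_atTop.comp hcast).eventually_ge_atTop (4 * u)]
    with X hX hX64 hx3 hXu hlog
  obtain ⟨hX1, hX2⟩ := hX
  simp only [Function.comp_apply] at hlog
  have hX64r : (64 : ℝ) ≤ X := by exact_mod_cast hX64
  have hX0 : (0 : ℝ) < X := by linarith
  have hX1r : (1 : ℝ) ≤ X := by linarith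
  have hXu1 : (1 : ℝ) ≤ (X : ℝ) ^ (u - 1) := Real.one_le_rpow hX1r (by linarith)
  have hXuu : (X : ℝ) ^ u = X * (X : ℝ) ^ (u - 1) := by
    conv_rhs => rw [← Real.rpow_one (X : ℝ), ← Real.rpow_mul hX0.le, one_mul]
    rw [← Real.rpow_add hX0]
    congr 1
    ring
  have hXge : (X : ℝ) ≤ (X : ℝ) ^ u := by rw [hXuu]; nlinarith
  have hxle : (xs u X : ℝ) ≤ (X : ℝ) ^ u := Nat.floor_le (by positivity)
  have hxge : (X : ℝ) ^ u < (xs u X : ℝ) + 1 := Nat.lt_floor_add_one _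
  have h1 : (X : ℝ) ^ (u - 1) ≤ (HT u X : ℝ) := by
    unfold HT
    have h3 := Nat.le_ceil (u * (X : ℝ) ^ (u - 1))
    push_cast
    nlinarith
  have h2 : (HT u X : ℝ) ≤ (u + 2) * (X : ℝ) ^ (u - 1) := by
    unfold HT
    have h3 := Nat.ceil_lt_add_one (show 0 ≤ u * (X : ℝ) ^ (u - 1) by positivity)
    push_cast
    nlinarith
  refine ⟨hX64, hx3, hxle, by linarith, ?_, ?_, h2, h1, by linarith, ?_, ?_, by linarith⟩
  · calc (xs u X : ℝ) ^ ((u - 1) / (2 * u)) ≤ ((X : ℝ) ^ u) ^ ((u - 1) / (2 * u)) :=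
          Real.rpow_le_rpow (Nat.cast_nonneg _) hxle (div_nonneg (by linarith) (by linarith))
      _ = (X : ℝ) ^ ((u - 1) / 2) := by
          rw [← Real.rpow_mul hX0.le]
          congr 1
          field_simp
      _ ≤ (X : ℝ) ^ (u - 1) := Real.rpow_le_rpow_of_exponent_le hX1r (by linarith)
      _ ≤ _ := h1
  · have h3 : (HT u X : ℝ) ≤ (xs u X : ℝ) := by
      have h4 : (u + 2) * (X : ℝ) ^ (u - 1) + 1 ≤ (X : ℝ) ^ u := by
        rw [hXuu]
        nlinarith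
      linarith
    exact_mod_cast h3
  · have h3 : (X : ℝ) ^ (u / 2) ≤ ((X : ℝ) / 8) ^ u := by
      have e : ((X : ℝ) / 8) ^ u = ((X : ℝ) / 8) ^ (u / 2) * ((X : ℝ) / 8) ^ (u / 2) := by
        rw [← Real.rpow_add (by positivity)]
        congr 1
        ring
      rw [e, ← Real.mul_rpow (by positivity) (by positivity)]
      apply Real.rpow_le_rpow hX0.le _ (by positivity)
      nlinarith
    calc (xs u X : ℝ) ^ (1 / ((2 * j : ℕ) : ℝ)) ≤ ((X : ℝ) ^ u) ^ (1 / ((2 * j : ℕ) : ℝ)) :=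
          Real.rpow_le_rpow (Nat.cast_nonneg _) hxle (by positivity)
      _ = ((X : ℝ) ^ (u / 2)) ^ (1 / (j : ℝ)) := by
          rw [← Real.rpow_mul hX0.le, ← Real.rpow_mul hX0.le]
          congr 1
          push_cast
          field_simp
      _ ≤ (((X : ℝ) / 8) ^ u) ^ (1 / (j : ℝ)) := Real.rpow_le_rpow (by positivity) h3 (by positivity)
      _ = _ := by
          rw [← Real.rpow_mul (by positivity)]
          congr 1
          ring
  · unfold xs
    apply Nat.le_floor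
    push_cast
    exact hX2

/-- the expected densities at `n` and at the scale -/
theorem dens {u : ℝ} (hu : 1 < u) {X n r : ℕ} (hX : 64 ≤ X) (hn : X ≤ 8 * n) (hnX : n ≤ X)
    (hx3 : 3 ≤ xs u X) (hx2 : (xs u X : ℝ) ≤ (X : ℝ) ^ u) (hx4 : (X : ℝ) ^ u ≤ 2 * (xs u X : ℝ))
    {T : Finset ℤ} (hT : Tup r (xs u X) T) :
    0 < gg T (xs u X) ∧ 0 < ge T n ∧ ge T n ≤ (2 * u) ^ r * gg T (xs u X) ∧ gg T (xs u X) ≤ 2 ^ r * ge T n := by
  have hu0 : 0 < u := by linarith
  have hg := gg_pos hx3 hT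
  have hXr : (64 : ℝ) ≤ X := by exact_mod_cast hX
  have hnr : (X : ℝ) ≤ 8 * n := by exact_mod_cast hn
  have hnXr : (n : ℝ) ≤ X := by exact_mod_cast hnX
  have hn8 : (8 : ℝ) ≤ n := by linarith
  have hn0 : (0 : ℝ) < n := by linarith
  have hX0 : (0 : ℝ) < X := by linarith
  have hln : 0 < Real.log n := Real.log_pos (by linarith)
  have hx3r : (3 : ℝ) ≤ xs u X := by exact_mod_cast hx3
  have hlx : 0 < Real.log (xs u X) := Real.log_pos (by linarith)
  have hS : 0 < Sing T := by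
    unfold gg at hg
    exact (div_pos_iff_of_pos_right (by positivity)).1 hg
  have h1 : Real.log (xs u X) ≤ 2 * u * Real.log n := by
    have h2 : Real.log (xs u X) ≤ u * Real.log X := by
      rw [← Real.log_rpow hX0]
      exact Real.log_le_log (by linarith) hx2
    have h3 : Real.log X ≤ 2 * Real.log n := by
      have h4 : (X : ℝ) ≤ (n : ℝ) ^ 2 := by nlinarith
      calc Real.log X ≤ Real.log ((n : ℝ) ^ 2) := Real.log_le_log hX0 h4
        _ = 2 * Real.log n := by rw [Real.log_pow]; norm_num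
    nlinarith
  have h2 : Real.log n ≤ 2 * Real.log (xs u X) := by
    have h3 : (n : ℝ) ≤ (xs u X : ℝ) ^ 2 := by
      have h4 : (X : ℝ) ≤ (X : ℝ) ^ u := by
        calc (X : ℝ) = (X : ℝ) ^ (1 : ℝ) := (Real.rpow_one _).symm
          _ ≤ _ := Real.rpow_le_rpow_of_exponent_le (by linarith) hu.le
      nlinarith
    calc Real.log n ≤ Real.log ((xs u X : ℝ) ^ 2) := Real.log_le_log hn0 h3
      _ = 2 * Real.log (xs u X) := by rw [Real.log_pow]; norm_num
  refine ⟨hg, by unfold ge; positivity, ?_, ?_⟩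
  · unfold ge gg
    rw [hT.card]
    rw [← mul_div_assoc, div_le_div_iff₀ (by positivity) (by positivity)]
    have h3 : Real.log (xs u X) ^ r ≤ (2 * u) ^ r * Real.log n ^ r := by
      rw [← mul_pow]
      exact pow_le_pow_left₀ hlx.le h1 r
    calc Sing T * Real.log (xs u X) ^ r ≤ Sing T * ((2 * u) ^ r * Real.log n ^ r) :=
          mul_le_mul_of_nonneg_left h3 hS.le
      _ = _ := by ring
  · unfold ge gg
    rw [hT.card]
    rw [← mul_div_assoc, div_le_div_iff₀ (by positivity) (by positivity)]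
    have h3 : Real.log n ^ r ≤ 2 ^ r * Real.log (xs u X) ^ r := by
      rw [← mul_pow]
      exact pow_le_pow_left₀ hln.le h2 r
    calc Sing T * Real.log n ^ r ≤ Sing T * (2 ^ r * Real.log (xs u X) ^ r) :=
          mul_le_mul_of_nonneg_left h3 hS.le
      _ = _ := by ring

end Pool.Agent.W5h31.CV
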