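import Pool.Agent.W5h31.CV.CV1

/-!
Chen's theorem between consecutive powers: the two parts.
-/

set_option autoImplicit false
set_option linter.unusedSectionVars false

namespace Pool.Agent.W5h31.CV

open Finset Filter
open Pool.Agent.Y843.AC (APs)
open Pool.Agent.Y843.AC.HL
open Pool.Agent.Y677.RSZ (ev_log)
open Pool.Agent.W5h31.CU (NT HT idx idx_spec len NT_bd NT_tendsto idx_bd pigeon exceptional)

theorem Alm_mono {j : ℕ} {w w' : ℝ} {k : ℤ} (hw : w' ≤ w) (h : Alm j w k) : Alm j w' k :=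
  ⟨h.1, h.2.1, fun q hq hd => lt_of_le_of_lt hw (h.2.2 q hq hd)⟩

/-- the sets between consecutive powers treated here -/
def OK (u : ℝ) (j : ℕ) (T : Finset ℤ) (n : ℕ) (S : Finset ℕ) : Prop :=
  ∀ q ∈ S, (n : ℝ) ^ u < q ∧ (q : ℝ) < ((n : ℝ) + 1) ^ u ∧
    ((∀ t ∈ T, ((q : ℤ) + t).natAbs.Prime) ∨
      ∀ p : ℕ, p.Prime → ∀ t ∈ T, (p : ℤ) ∣ q + t → (n : ℝ) ^ (u / j) < p)

theorem OK_sub {u : ℝ} (hu : 1 < u) {j : ℕ} {T : Finset ℤ} {n X : ℕ} (hn : n < X) {S : Finset ℕ}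
    (hS : OK u j T n S) : S ⊆ Ioc ⌊(n : ℝ) ^ u⌋₊ (⌊(n : ℝ) ^ u⌋₊ + HT u X) := by
  intro q hq
  obtain ⟨h1, h2, -⟩ := hS q hq
  rw [mem_Ioc]
  have e1 := Nat.floor_le (show 0 ≤ (n : ℝ) ^ u by positivity)
  have e2 := Nat.lt_floor_add_one ((n : ℝ) ^ u)
  have e3 := len hu hn
  have e4 := Nat.le_ceil (u * (X : ℝ) ^ (u - 1))
  constructor
  · have : ((⌊(n : ℝ) ^ u⌋₊ : ℕ) : ℝ) < q := by linarith
    exact_mod_cast this
  · have : (q : ℝ) < ((⌊(n : ℝ) ^ u⌋₊ + HT u X : ℕ) : ℝ) := by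
      unfold HT
      push_cast
      linarith
    have h3 : q < ⌊(n : ℝ) ^ u⌋₊ + HT u X := by exact_mod_cast this
    exact h3.le

theorem OK_rough {u : ℝ} (hu : 1 < u) {j : ℕ} {T : Finset ℤ} {n X : ℕ} (hn : X ≤ 8 * n)
    (hx : (xs u X : ℝ) ^ (1 / ((2 * j : ℕ) : ℝ)) ≤ ((X : ℝ) / 8) ^ (u / j)) {S : Finset ℕ}
    (hS : OK u j T n S) : ∀ m ∈ S, Tp (2 * j) (xs u X) T m := by
  intro m hm
  rcases (hS m hm).2.2 with h1 | h1
  · exact Or.inl h1
  right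
  intro q hq hqx t ht hd
  have h2 := h1 q hq t ht hd
  have h3 : ((X : ℝ) / 8) ^ (u / j) ≤ (n : ℝ) ^ (u / j) := by
    apply Real.rpow_le_rpow (by positivity) _ (by positivity)
    have : (X : ℝ) ≤ 8 * n := by exact_mod_cast hn
    linarith
  linarith

open Classical in
/-- the progressions -/
theorem partB (u : ℝ) (hu : 1 < u) (r j k : ℕ) (hj : 1 ≤ j) (hk : 1 ≤ k) (δ : ℝ) (hδ : 0 < δ) :
    ∃ c C : ℝ, 0 < c ∧ 0 < C ∧ ∃ B : ℕ, ∀ᶠ X : ℕ in atTop, ∀ T : Finset ℤ, Tup r (xs u X) T →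
      ∀ n : ℕ, n < X → X ≤ 8 * n → ∀ D : ℕ, Real.log n ^ B ≤ D → (D : ℝ) ≤ (n : ℝ) ^ (u - 1) →
      ∀ S : Finset ℕ, OK u j T n S →
      ((APs k D S).card : ℝ) ≤ C * ((n : ℝ) ^ (u - 1) * D * ge T n ^ k) ∧
      (δ * ((n : ℝ) ^ (u - 1) * ge T n) ≤ S.card →
        c * ((n : ℝ) ^ (u - 1) * D * ge T n ^ k) ≤ ((APs k D S).card : ℝ)) ∧
      (δ * ((n : ℝ) ^ (u - 1) * D * ge T n ^ k) ≤ ((APs k D S).card : ℝ) →
        c * ((n : ℝ) ^ (u - 1) * ge T n) ≤ S.card) := by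
  have hu0 : 0 < u := by linarith
  have hθ : 0 < (u - 1) / (2 * u) := div_pos (by linarith) (by linarith)
  obtain ⟨C₁, hC₁, B₁, x₁, h1⟩ := rep_up r k (2 * j) hk (by omega) hθ
  obtain ⟨c₂, hc₂, B₂, x₂, h2⟩ := rep_dn r k (2 * j) hk (by omega) hθ
    (δ := δ / ((u + 2) * 8 ^ (u - 1) * 2 ^ r)) (by positivity)
  obtain ⟨c₃, hc₃, B₃, x₃, h3⟩ := rep_dn r k (2 * j) hk (by omega) hθ
    (δ := δ / ((u + 2) * 8 ^ (u - 1) * (2 ^ r) ^ k)) (by positivity)
  refine ⟨min (c₂ / ((2 * u) ^ r) ^ k) (c₃ / (2 * u) ^ r), C₁ * ((u + 2) * 8 ^ (u - 1)) * (2 ^ r) ^ k,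
    lt_min (by positivity) (by positivity), by positivity, 2 * max B₁ (max B₂ B₃), ?_⟩
  filter_upwards [nums u j hj hu, (xs_tendsto hu).eventually_ge_atTop x₁,
    (xs_tendsto hu).eventually_ge_atTop x₂, (xs_tendsto hu).eventually_ge_atTop x₃] with
    X hX hx1 hx2 hx3 T hT n hnX hXn D hD1 hD2 S hSO
  obtain ⟨m1, m2, m3, m4, m5, m6, m7, m8, m9, m10, m11, m12⟩ := hX
  obtain ⟨hg, hge, hcmp1, hcmp2⟩ := dens hu m1 hXn hnX.le m2 m3 m4 hT
  have hXr : (64 : ℝ) ≤ X := by exact_mod_cast m1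
  have hX0 : (0 : ℝ) < X := by linarith
  have hnr : (X : ℝ) ≤ 8 * n := by exact_mod_cast hXn
  have hnXr : (n : ℝ) ≤ X := by exact_mod_cast hnX.le
  have hn0 : (0 : ℝ) < n := by linarith
  have hlX : Real.log X ≤ 2 * Real.log n := by
    have h4 : (X : ℝ) ≤ (n : ℝ) ^ 2 := by nlinarith
    calc Real.log X ≤ Real.log ((n : ℝ) ^ 2) := Real.log_le_log hX0 h4
      _ = 2 * Real.log n := by rw [Real.log_pow]; norm_num
  have hln : 2 * u ≤ Real.log n := by linarith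
  have hx3r : (3 : ℝ) ≤ xs u X := by exact_mod_cast m2
  have hlx0 : 1 ≤ Real.log (xs u X) := by
    rw [Real.le_log_iff_exp_le (by linarith)]
    have := Real.exp_one_lt_d9
    linarith
  have hlx : Real.log (xs u X) ≤ Real.log n ^ 2 := by
    have h5 : Real.log (xs u X) ≤ u * Real.log X := by
      rw [← Real.log_rpow hX0]
      exact Real.log_le_log (by linarith) m3
    nlinarith
  have hDm : Real.log (xs u X) ^ max B₁ (max B₂ B₃) ≤ D := by
    refine le_trans ?_ hD1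
    rw [pow_mul]
    exact pow_le_pow_left₀ (by linarith) hlx _
  have hD3 : Real.log (xs u X) ^ B₁ ≤ D :=
    (pow_le_pow_right₀ hlx0 (le_max_left _ _)).trans hDm
  have hD4 : Real.log (xs u X) ^ B₂ ≤ D :=
    (pow_le_pow_right₀ hlx0 ((le_max_left _ _).trans (le_max_right _ _))).trans hDm
  have hD5 : Real.log (xs u X) ^ B₃ ≤ D :=
    (pow_le_pow_right₀ hlx0 ((le_max_right _ _).trans (le_max_right _ _))).trans hDm
  have hnu : (X : ℝ) ^ (u - 1) ≤ 8 ^ (u - 1) * (n : ℝ) ^ (u - 1) := by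
    rw [← Real.mul_rpow (by norm_num) hn0.le]
    exact Real.rpow_le_rpow hX0.le hnr (by linarith)
  have hnu2 : (n : ℝ) ^ (u - 1) ≤ (X : ℝ) ^ (u - 1) := Real.rpow_le_rpow hn0.le hnXr (by linarith)
  have hH : (HT u X : ℝ) ≤ (u + 2) * 8 ^ (u - 1) * (n : ℝ) ^ (u - 1) := by
    calc (HT u X : ℝ) ≤ (u + 2) * (X : ℝ) ^ (u - 1) := m7
      _ ≤ (u + 2) * (8 ^ (u - 1) * (n : ℝ) ^ (u - 1)) := mul_le_mul_of_nonneg_left hnu (by positivity)
      _ = _ := by ring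
  have hH2 : (n : ℝ) ^ (u - 1) ≤ (HT u X : ℝ) := hnu2.trans m8
  have hsub := OK_sub hu hnX hSO
  have hrough := OK_rough hu hXn m10 hSO
  have hDH : D ≤ HT u X := by
    have : (D : ℝ) ≤ (HT u X : ℝ) := hD2.trans hH2
    exact_mod_cast this
  refine ⟨?_, ?_, ?_⟩
  · have h3 := h1 (xs u X) hx1 T hT _ (HT u X) D m5 m6 hD3 _ hsub hrough
    refine h3.trans ?_
    have h4 : gg T (xs u X) ^ k ≤ (2 ^ r * ge T n) ^ k := pow_le_pow_left₀ hg.le hcmp2 k
    calc C₁ * ((HT u X : ℝ) * D * gg T (xs u X) ^ k) ≤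
        C₁ * (((u + 2) * 8 ^ (u - 1) * (n : ℝ) ^ (u - 1)) * D * (2 ^ r * ge T n) ^ k) := by gcongr
      _ = _ := by rw [mul_pow]; ring
  · intro hS
    have h3 := (h2 (xs u X) hx2 T hT _ (HT u X) D m5 m6 hD4 hDH _ hsub hrough).1 (by
      refine le_trans ?_ hS
      rw [div_mul_eq_mul_div, div_le_iff₀ (by positivity)]
      calc δ * ((HT u X : ℝ) * gg T (xs u X)) ≤
          δ * (((u + 2) * 8 ^ (u - 1) * (n : ℝ) ^ (u - 1)) * (2 ^ r * ge T n)) := by gcongr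
        _ = _ := by ring)
    refine le_trans ?_ h3
    have h4 : ge T n ^ k ≤ ((2 * u) ^ r * gg T (xs u X)) ^ k := pow_le_pow_left₀ hge.le hcmp1 k
    refine (mul_le_mul_of_nonneg_right (min_le_left _ _) (by positivity)).trans ?_
    rw [div_mul_eq_mul_div, div_le_iff₀ (by positivity)]
    calc c₂ * ((n : ℝ) ^ (u - 1) * D * ge T n ^ k) ≤
        c₂ * ((HT u X : ℝ) * D * ((2 * u) ^ r * gg T (xs u X)) ^ k) := by gcongr
      _ = _ := by rw [mul_pow]; ring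
  · intro hS
    have h5 := (h3 (xs u X) hx3 T hT _ (HT u X) D m5 m6 hD5 hDH _ hsub hrough).2 (by
      refine le_trans ?_ hS
      have h4 : gg T (xs u X) ^ k ≤ (2 ^ r * ge T n) ^ k := pow_le_pow_left₀ hg.le hcmp2 k
      rw [div_mul_eq_mul_div, div_le_iff₀ (by positivity)]
      calc δ * ((HT u X : ℝ) * D * gg T (xs u X) ^ k) ≤
          δ * (((u + 2) * 8 ^ (u - 1) * (n : ℝ) ^ (u - 1)) * D * (2 ^ r * ge T n) ^ k) := by gcongr
        _ = _ := by rw [mul_pow]; ring)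
    refine le_trans ?_ h5
    refine (mul_le_mul_of_nonneg_right (min_le_right _ _) (by positivity)).trans ?_
    rw [div_mul_eq_mul_div, div_le_iff₀ (by positivity)]
    calc c₃ * ((n : ℝ) ^ (u - 1) * ge T n) ≤
        c₃ * ((HT u X : ℝ) * ((2 * u) ^ r * gg T (xs u X))) := by gcongr
      _ = _ := by ring

open Classical in
/-- the proportion -/
theorem partA (u : ℝ) (hu : 1 < u) (r : ℕ) : ∃ j : ℕ, 1 ≤ j ∧ ∃ c : ℝ, 0 < c ∧
    ∀ᶠ X : ℕ in atTop, ∀ T : Finset ℤ, Tup r (xs u X) T → (0 : ℤ) ∈ T → (2 : ℤ) ∈ T →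
      c * X ≤ (((range X).filter (fun n => X ≤ 8 * n ∧
        c * ((n : ℝ) ^ (u - 1) * ge T n) ≤ ((Cs u j T n).card : ℝ))).card : ℝ) := by
  have hu0 : 0 < u := by linarith
  have hθ : 0 < (u - 1) / (2 * u) := div_pos (by linarith) (by linarith)
  obtain ⟨j, hj, c₀, hc₀, h0⟩ := chen_low r
  obtain ⟨x₀, h0⟩ := h0 (1 / 4) (by norm_num)
  obtain ⟨C₁, hC₁, B₁, x₁, h1⟩ := rep_up r 1 j le_rfl hj hθ
  obtain ⟨cr, hcr, hgr⟩ := gg_ge r
  obtain ⟨c, hc⟩ : ∃ c : ℝ, c = min (c₀ / 16 / (2 * u) ^ r) (c₀ / (16 * (C₁ * (u + 2)))) := ⟨_, rfl⟩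
  have hc0 : 0 < c := by
    rw [hc]
    exact lt_min (by positivity) (by positivity)
  have hc1 : c ≤ c₀ / 16 / (2 * u) ^ r := by rw [hc]; exact min_le_left _ _
  have hc2 : c ≤ c₀ / (16 * (C₁ * (u + 2))) := by rw [hc]; exact min_le_right _ _
  refine ⟨j, hj, c, hc0, ?_⟩
  filter_upwards [nums u j hj hu, (xs_tendsto hu).eventually_ge_atTop x₀,
    (xs_tendsto hu).eventually_ge_atTop x₁, NT_bd hu, idx_bd hu,
    ev_log r (24 / (c₀ * cr) * u ^ r) (u - 1) (by linarith)] with X hX hx0 hx1 hNT hidx hlog T hT h0T h2T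
  obtain ⟨m1, m2, m3, m4, m5, m6, m7, m8, m9, m10, m11, m12⟩ := hX
  have hXr : (64 : ℝ) ≤ X := by exact_mod_cast m1
  have hX0 : (0 : ℝ) < X := by linarith
  obtain ⟨g, hgd⟩ : ∃ g, g = gg T (xs u X) := ⟨_, rfl⟩
  have hg : 0 < g := by rw [hgd]; exact gg_pos m2 hT
  have hx3r : (3 : ℝ) ≤ xs u X := by exact_mod_cast m2
  have hlx0 : 1 ≤ Real.log (xs u X) := by
    rw [Real.le_log_iff_exp_le (by linarith)]
    have := Real.exp_one_lt_d9
    linarith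
  have hXuu : (X : ℝ) ^ u = X * (X : ℝ) ^ (u - 1) := by
    conv_rhs => rw [← Real.rpow_one (X : ℝ), ← Real.rpow_mul hX0.le, one_mul]
    rw [← Real.rpow_add hX0]
    congr 1
    ring
  have hpow : 0 < (X : ℝ) ^ (u - 1) := by positivity
  -- the set
  obtain ⟨S, hS⟩ : ∃ S, S = Ch j (xs u X) T 2 (NT u X) (2 * NT u X) := ⟨_, rfl⟩
  have hScard : c₀ * ((X : ℝ) ^ u / 4 * g) ≤ S.card := by
    have h3 := h0 (xs u X) hx0 T hT h0T 2 h2T (by norm_num) (NT u X) (2 * NT u X) m11 (by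
      push_cast
      linarith)
    rw [← hS, ← hgd] at h3
    refine le_trans ?_ h3
    apply mul_le_mul_of_nonneg_left _ hc₀.le
    apply mul_le_mul_of_nonneg_right _ hg.le
    push_cast
    linarith [hNT.1]
  have hmem : ∀ q ∈ S, NT u X < q ∧ q ≤ 2 * NT u X ∧ q.Prime ∧
      Alm 2 ((xs u X : ℝ) ^ (1 / 9 : ℝ)) (q + 2) ∧ ∀ t ∈ T, Alm j ((xs u X : ℝ) ^ (1 / (j : ℝ))) (q + t) := by
    intro q hq
    rw [hS] at hq
    unfold Ch at hq
    rw [mem_filter, mem_Ioc] at hq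
    exact ⟨hq.1.1, hq.1.2, hq.2.1, hq.2.2.1, hq.2.2.2⟩
  obtain ⟨A', hA'⟩ : ∃ A', A' = S.filter (fun x => ((x + 2 : ℕ) : ℝ) < ((idx u x : ℕ) + 1 : ℝ) ^ u) :=
    ⟨_, rfl⟩
  have hmain : 3 ≤ c₀ / 8 * ((X : ℝ) ^ (u - 1) * g) := by
    have h3 := hgr (xs u X) m2 T hT
    rw [← hgd] at h3
    have h4 : Real.log (xs u X) ^ r ≤ u ^ r * Real.log X ^ r := by
      rw [← mul_pow]
      apply pow_le_pow_left₀ (by linarith)
      rw [← Real.log_rpow hX0]
      exact Real.log_le_log (by linarith) m3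
    have h5 : 24 / (c₀ * cr) * Real.log (xs u X) ^ r ≤ (X : ℝ) ^ (u - 1) := by
      refine le_trans ?_ hlog
      calc 24 / (c₀ * cr) * Real.log (xs u X) ^ r ≤ 24 / (c₀ * cr) * (u ^ r * Real.log X ^ r) :=
            mul_le_mul_of_nonneg_left h4 (by positivity)
        _ = _ := by ring
    have h6 : 0 < Real.log (xs u X) ^ r := by positivity
    calc (3 : ℝ) = c₀ / 8 * ((24 / (c₀ * cr) * Real.log (xs u X) ^ r) * (cr / Real.log (xs u X) ^ r)) := by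
          field_simp
          norm_num
      _ ≤ c₀ / 8 * ((X : ℝ) ^ (u - 1) * g) := by gcongr
  have hA'c : c₀ / 8 * ((X : ℝ) ^ u * g) ≤ A'.card := by
    have h3 : (S.filter (fun x => ¬ ((x + 2 : ℕ) : ℝ) < ((idx u x : ℕ) + 1 : ℝ) ^ u)).card ≤
        (2 + 1) * X := by
      apply exceptional hu
      intro x hx
      rw [mem_filter] at hx
      obtain ⟨g1, g2, -⟩ := hmem x hx.1
      exact ⟨by omega, (hidx x g1 g2).1, hx.2⟩
    have h4 : A'.card + (S.filter (fun x => ¬ ((x + 2 : ℕ) : ℝ) < ((idx u x : ℕ) + 1 : ℝ) ^ u)).card =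
        S.card := by
      rw [hA']
      exact card_filter_add_card_filter_not _
    have h5 : (S.card : ℝ) ≤ A'.card + 3 * X := by
      have : S.card ≤ A'.card + 3 * X := by omega
      exact_mod_cast this
    have h6 : 3 * (X : ℝ) ≤ c₀ / 8 * ((X : ℝ) ^ u * g) := by
      rw [hXuu]
      nlinarith
    nlinarith
  -- the fibres
  have hfsub : ∀ n, n < X → A'.filter (fun x => idx u x = n) ⊆
      Ioc ⌊(n : ℝ) ^ u⌋₊ (⌊(n : ℝ) ^ u⌋₊ + HT u X) := by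
    intro n hn x hx
    rw [mem_filter, hA', mem_filter] at hx
    obtain ⟨⟨hxA, hx1⟩, hx2⟩ := hx
    obtain ⟨g1, g2, -⟩ := hmem x hxA
    obtain ⟨g3, g4⟩ := idx_spec hu (show 1 ≤ x by omega)
    rw [hx2] at g3 g4 hx1
    rw [mem_Ioc]
    have e1 := Nat.floor_le (show 0 ≤ (n : ℝ) ^ u by positivity)
    have e2 := Nat.lt_floor_add_one ((n : ℝ) ^ u)
    have e3 := len hu hn
    have e4 := Nat.le_ceil (u * (X : ℝ) ^ (u - 1))
    constructor
    · have : ((⌊(n : ℝ) ^ u⌋₊ : ℕ) : ℝ) < x := by linarith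
      exact_mod_cast this
    · have : (x : ℝ) < ((⌊(n : ℝ) ^ u⌋₊ + HT u X : ℕ) : ℝ) := by
        unfold HT
        push_cast
        push_cast at hx1
        linarith
      have h3 : x < ⌊(n : ℝ) ^ u⌋₊ + HT u X := by exact_mod_cast this
      exact h3.le
  have hfib : ∀ n, ((A'.filter (fun x => idx u x = n)).card : ℝ) ≤ C₁ * (u + 2) * ((X : ℝ) ^ (u - 1) * g) := by
    intro n
    rcases (A'.filter (fun x => idx u x = n)).eq_empty_or_nonempty with h0 | ⟨x₀, hx₀⟩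
    · rw [h0, card_empty]
      push_cast
      positivity
    have hn : n < X := by
      rw [mem_filter] at hx₀
      obtain ⟨h1, h2⟩ := hx₀
      rw [hA', mem_filter] at h1
      obtain ⟨g1, g2, -⟩ := hmem x₀ h1.1
      have := (hidx x₀ g1 g2).1
      rwa [h2] at this
    obtain ⟨D, hD⟩ : ∃ D : ℕ, D = ⌈Real.log (xs u X) ^ B₁⌉₊ := ⟨_, rfl⟩
    have hD1 : Real.log (xs u X) ^ B₁ ≤ D := by rw [hD]; exact Nat.le_ceil _
    have hD0 : (0 : ℝ) < D := lt_of_lt_of_le (by positivity) hD1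
    have h3 := h1 (xs u X) hx1 T hT _ (HT u X) D m5 m6 hD1 _ (hfsub n hn) (by
      intro x hx
      rw [mem_filter, hA', mem_filter] at hx
      right
      have := hx.1.1
      rw [hS] at this
      exact Ch_rough T 2 _ _ x this)
    have h4 : (APs 1 D (A'.filter (fun x => idx u x = n))).card =
        (A'.filter (fun x => idx u x = n)).card * D := by
      unfold APs
      rw [filter_true_of_mem, card_product, Nat.card_Icc]
      · simp
      · intro q hq i hi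
        have hi0 : i = 0 := by omega
        rw [hi0, zero_mul, add_zero]
        exact (mem_product.1 hq).1
    rw [h4, ← hgd, pow_one] at h3
    push_cast at h3
    have h5 : ((A'.filter (fun x => idx u x = n)).card : ℝ) ≤ C₁ * ((HT u X : ℝ) * g) := by
      have h6 : C₁ * ((HT u X : ℝ) * D * g) = C₁ * ((HT u X : ℝ) * g) * D := by ring
      rw [h6] at h3
      exact le_of_mul_le_mul_right h3 hD0
    refine h5.trans ?_
    calc C₁ * ((HT u X : ℝ) * g) ≤ C₁ * (((u + 2) * (X : ℝ) ^ (u - 1)) * g) := by gcongr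
      _ = _ := by ring
  have hpig := pigeon (A := A') (f := idx u) (T := X) (by omega) (by
    intro x hx
    rw [hA', mem_filter] at hx
    obtain ⟨g1, g2, -⟩ := hmem x hx.1
    exact mem_range.2 (hidx x g1 g2).1) (C₁ * (u + 2) * ((X : ℝ) ^ (u - 1) * g))
    (c₀ / 16 * ((X : ℝ) ^ u * g)) (by positivity) (by positivity) hfib (by
      have : 2 * (c₀ / 16 * ((X : ℝ) ^ u * g)) = c₀ / 8 * ((X : ℝ) ^ u * g) := by ring
      rw [this]
      exact hA'c)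
  have e1 : c₀ / 16 * ((X : ℝ) ^ u * g) / (C₁ * (u + 2) * ((X : ℝ) ^ (u - 1) * g)) =
      c₀ / (16 * (C₁ * (u + 2))) * X := by
    rw [hXuu]
    field_simp
  have e2 : c₀ / 16 * ((X : ℝ) ^ u * g) / X = c₀ / 16 * ((X : ℝ) ^ (u - 1) * g) := by
    rw [hXuu]
    field_simp
  rw [e1, e2] at hpig
  refine (mul_le_mul_of_nonneg_right hc2 hX0.le).trans (hpig.trans ?_)
  rw [Nat.cast_le]
  apply card_le_card
  intro n hn
  rw [mem_filter] at hn ⊢
  obtain ⟨hnX, hncard⟩ := hn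
  rw [mem_range] at hnX
  have hne : (A'.filter (fun x => idx u x = n)).Nonempty := by
    rw [← card_pos]
    have : (0 : ℝ) < ((A'.filter (fun x => idx u x = n)).card : ℝ) := lt_of_lt_of_le (by positivity) hncard
    exact_mod_cast this
  have hXn : X ≤ 8 * n := by
    obtain ⟨x₀, hx₀⟩ := hne
    rw [mem_filter] at hx₀
    obtain ⟨h1, h2⟩ := hx₀
    rw [hA', mem_filter] at h1
    obtain ⟨g1, g2, -⟩ := hmem x₀ h1.1
    have := (hidx x₀ g1 g2).2
    rwa [h2] at this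
  obtain ⟨-, hge, hcmp1, -⟩ := dens hu m1 hXn hnX.le m2 m3 m4 hT
  rw [← hgd] at hcmp1
  refine ⟨mem_range.2 hnX, hXn, ?_⟩
  have hn0 : (0 : ℝ) ≤ n := Nat.cast_nonneg n
  have hnu2 : (n : ℝ) ^ (u - 1) ≤ (X : ℝ) ^ (u - 1) :=
    Real.rpow_le_rpow hn0 (by exact_mod_cast hnX.le) (by linarith)
  have hle : ((A'.filter (fun x => idx u x = n)).card : ℝ) ≤ ((Cs u j T n).card : ℝ) := by
    rw [Nat.cast_le]
    apply card_le_card
    intro q hq
    rw [mem_filter, hA', mem_filter] at hq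
    obtain ⟨⟨hqS, hq1⟩, hq2⟩ := hq
    obtain ⟨g1, g2, g3, g4, g5⟩ := hmem q hqS
    obtain ⟨g6, g7⟩ := idx_spec hu (show 1 ≤ q by omega)
    rw [hq2] at g6 hq1
    have hnx : (n : ℝ) ^ u ≤ (xs u X : ℝ) := by
      have h3 : (q : ℝ) ≤ (xs u X : ℝ) := by exact_mod_cast g2.trans m11
      linarith
    have hroot : ∀ e : ℝ, 0 ≤ e → (n : ℝ) ^ (u * e) ≤ (xs u X : ℝ) ^ e := by
      intro e he
      rw [Real.rpow_mul hn0]
      exact Real.rpow_le_rpow (by positivity) hnx he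
    unfold Cs
    rw [mem_filter, mem_range, Nat.lt_ceil]
    push_cast at hq1
    refine ⟨by linarith, g3, g6, hq1, Alm_mono ?_ g4, fun t ht => Alm_mono ?_ (g5 t ht)⟩
    · have := hroot (1 / 9) (by norm_num)
      rw [mul_one_div] at this
      exact this
    · have := hroot (1 / (j : ℝ)) (by positivity)
      rw [mul_one_div] at this
      exact this
  refine le_trans ?_ (hncard.trans hle)
  calc c * ((n : ℝ) ^ (u - 1) * ge T n) ≤
      c₀ / 16 / (2 * u) ^ r * ((X : ℝ) ^ (u - 1) * ((2 * u) ^ r * g)) := by gcongr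
    _ = _ := by
        field_simp

end Pool.Agent.W5h31.CV
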